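import Pool.Agent.H547_d.Good

/-!
# The numerical Hodge standard conjecture for abelian varieties of Gauss sum type

Let `p` be a prime number and `m` prime to `p`. We consider the abelian varieties over an algebraic
closure of the field with `p` elements all simple factors of which occur in the Jacobians of the curves
`y ^ q - y = x ^ d`, for any powers `q` of `p` and any divisors `d` of `m`. Their dimensions are not
bounded. (The same holds with the Jacobians of the Fermat curves of degrees dividing `m` in addition:
their eigenvectors are labelled by three residues with sum zero, and the form below covers them.)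

**Theorem.** 1. The numerical Hodge standard conjecture holds for all these abelian varieties, in all
codimensions and for all polarizations, if each `d` is a power of a prime number, or twice such a
power, or divides `p ^ e + 1` for some `e` (the prime numbers may be different for different `d`); or if
the prime divisors of `m` lie in `{2, 3, 5}`, or in `{2, 3, 7}`, or in `{2, r}` for a prime number `r`
congruent to `7` modulo `8`; or if `m` is odd and its prime divisors lie in `{3, 11}` or in `{3, 13}`;
or if a power of `p` is `-1` modulo the odd part of `m`.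

2. For all other `m` it is reduced to a few signs: there are at most `c - 1` algebraic classes `u` with
the following property: the numerical Hodge standard conjecture holds for all the abelian varieties
above, if and only if the form is positive on the lines of the classes `u`. Here `c` is the number of
the classes of linked nonzero residues modulo `m`, and `c` is at most `2 ^ r`, `r` being the number of
the odd prime divisors of `m`. This bound does not depend on `p` and on the exponents of the prime
numbers in `m`. We do not assume that Tate classes are algebraic.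

3. The space of the primitive numerical classes of codimension `n` on such an abelian variety `A` is an
orthogonal sum of subspaces on each of which the form `(-1) ^ n x y L ^ (g - 2 n)` is definite, positive
or negative: the subspaces belong to the parities of the numbers of the residues in the classes of
linked residues. The sign of the form on such a subspace is the same for all `A` and `n`, and it is a
homomorphism from a group of parity vectors to `{1, -1}`. In particular the form is definite on every
irreducible rational representation of the endomorphism algebra in this space, and it is positive if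
all numbers are even, for instance on the exotic classes of the doubles `s + s`.

*The hypotheses in Lean.* `CycleSystem` and `SignSystem` describe the set of the algebraic lines and
their signs (for numerical equivalence, where a line `s` is algebraic if it is contained in the space
of the numerical classes with complex coefficients on the product of the curves `y ^ p - y = x ^ m`, one
for each element of `s`). The fields say that they are closed under the operations below, which are
known theorems and not formalised: the theorem of the Hodge index for products of two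
curves and for Fermat surfaces, the Hodge-Riemann relations for the standard cycles of Aoki and Shioda,
which lift to characteristic zero, external products, and the maps `x ↦ x ^ N`. The signs for the
characters of the Fermat varieties and for products of Artin-Schreier curves agree: on the variety
`y ^ p - y = x_0 ^ m + ... + x_(n+1) ^ m`, which is dominated by the product of the curves, the cycles
`∑ ψ(c) (cone over W in the fibre y = c)` have the self-intersection number `- m p (W, W)`, for
primitive `W` and a nontrivial character `ψ` of the field with `p` elements.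

`SignedForm` describes the space of the primitive numerical classes on a product of the Jacobians with
the product polarization: the monomials in an eigenbasis of the first cohomology, times an orthogonal
basis of the primitive polynomials in the classes of the dual pairs, diagonalize the hermitian form. If
the conjecture holds for one polarization `L` of `A`, then it holds for all (every other one is the pull
back of `L` by a symmetric element of `End(A) ⊗ ℝ`), and for all abelian varieties which are isogenous
to abelian subvarieties of `A`.
-/

set_option autoImplicit false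

namespace Pool.Agent.Results.MP_c0b458_ag.GaussSumSigns

open Finset Pool.Agent.H547_d

section defs

/-- Linked residues: two nonzero residues `a`, `b` modulo `m` such that the (additive) orders of `a`
and `b` have the same prime divisors, or both orders are even, or, for every unit `t` modulo `m`,
the representatives in `{1, ..., m - 1}` of the residues `p ^ j * t * a`, `0 ≤ j < f`, `f` being the
order of `p` modulo `m`, have the same sum as those of the residues `p ^ j * t * b`. -/
def Linked (p m : ℕ) (a b : ZMod m) : Prop :=
  a ≠ 0 ∧ b ≠ 0 ∧
    ((addOrderOf a).primeFactors = (addOrderOf b).primeFactors ∨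
      (Even (addOrderOf a) ∧ Even (addOrderOf b)) ∨
      ∀ t : (ZMod m)ˣ,
        ∑ j ∈ Finset.range (orderOf (p : ZMod m)), ((p : ZMod m) ^ j * ((t : ZMod m) * a)).val =
          ∑ j ∈ Finset.range (orderOf (p : ZMod m)), ((p : ZMod m) ^ j * ((t : ZMod m) * b)).val)

/-- The number of the classes of nonzero residues modulo `m` for the equivalence relation generated by
the links. -/
noncomputable def linkClasses (p m : ℕ) : ℕ := Set.ncard {C : Quot (Linked p m) | C ≠ Quot.mk _ 0}

open scoped Classical in
/-- The number of the elements of `s` in each class of linked residues has the same parity as the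
number of those of `s'`. -/
def SameParities (p m : ℕ) (s s' : Multiset (ZMod m)) : Prop :=
  ∀ C : Quot (Linked p m),
    (Even (s.countP fun a => Quot.mk (Linked p m) a = C) ↔
      Even (s'.countP fun a => Quot.mk (Linked p m) a = C))

/-- A rational quadratic space which is diagonal over the complex numbers, with the signs of the
algebraic characters: for instance the space of the primitive numerical classes of some codimension on
a product of the Jacobians of the curves `y ^ q - y = x ^ d`. -/
structure SignedForm {p : ℕ} {S : CycleSystem p} (σ : SignSystem S) (m : ℕ) where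
  /-- the space of the rational numerical classes -/
  V : Type
  [addCommGroup : AddCommGroup V]
  [module : Module ℚ V]
  /-- the form `(-1) ^ n x y L ^ (g - 2 n)` -/
  form : V →ₗ[ℚ] V →ₗ[ℚ] ℚ
  /-- the indices of the vectors of the eigenbasis -/
  ι : Type
  [fintype : Fintype ι]
  /-- the coordinates of a rational class -/
  coord : V →ₗ[ℚ] (ι → ℂ)
  coord_injective : Function.Injective coord
  /-- the characters of the vectors of the eigenbasis -/
  res : ι → Multiset (ZMod m)
  alg : ∀ i, S.Alg m (res i)
  /-- the values of the hermitian form on the vectors of the eigenbasis -/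
  weight : ι → ℝ
  weight_sign : ∀ i, 0 < weight i * ((σ.sign m (res i) : ℤ) : ℝ)
  form_eq : ∀ x y, ((form x y : ℚ) : ℂ) =
    ∑ i, (weight i : ℂ) * (coord x i * (starRingEnd ℂ) (coord y i))

attribute [instance] SignedForm.addCommGroup SignedForm.module SignedForm.fintype

/-- The form is definite, with the sign of `s`, on the space of the rational classes which are
combinations of vectors of the eigenbasis with the parities of `s`. -/
def DefiniteOn {p : ℕ} {S : CycleSystem p} (σ : SignSystem S) {m : ℕ} (D : SignedForm σ m)
    (s : Multiset (ZMod m)) : Prop :=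
  ∀ x : D.V, x ≠ 0 → (∀ i, D.coord x i ≠ 0 → SameParities p m (D.res i) s) →
    0 < ((σ.sign m s : ℤ) : ℚ) * D.form x x

/-- The prime divisors of `m` are `2`, `a` or `b`. -/
def PrimesIn (m a b : ℕ) : Prop := ∀ r : ℕ, r.Prime → r ∣ m → r = 2 ∨ r = a ∨ r = b

/-- The good degrees: every residue which occurs has as order a power of a prime number, or twice such
a power, or a divisor of `p ^ e + 1` for some `e`; or the prime divisors of `m` lie in `{2, 3, 5}`, or
in `{2, 3, 7}`, or in `{2, r}` for a prime number `r` congruent to `7` modulo `8`; or `m` is odd and its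
prime divisors lie in `{3, 11}` or in `{3, 13}`; or a power of `p` is `-1` modulo the odd part of `m`. -/
def GoodDegrees (p : ℕ) {S : CycleSystem p} {σ : SignSystem S} {m : ℕ} (D : SignedForm σ m) : Prop :=
  (∀ i, ∀ a ∈ D.res i, (∃ ℓ k : ℕ, ℓ.Prime ∧ (addOrderOf a = ℓ ^ k ∨ addOrderOf a = 2 * ℓ ^ k)) ∨
      ∃ e : ℕ, addOrderOf a ∣ p ^ e + 1) ∨
    PrimesIn m 3 5 ∨ PrimesIn m 3 7 ∨ (∃ r : ℕ, r.Prime ∧ r % 8 = 7 ∧ PrimesIn m r r) ∨
    (Odd m ∧ (PrimesIn m 3 11 ∨ PrimesIn m 3 13)) ∨ ∃ K : ℕ, m / 2 ^ m.factorization 2 ∣ p ^ K + 1

/-- The form is positive definite. -/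
def Positive {p : ℕ} {S : CycleSystem p} {σ : SignSystem S} {m : ℕ} (D : SignedForm σ m) : Prop :=
  ∀ x : D.V, x ≠ 0 → 0 < D.form x x

end defs

section proof

variable {p m : ℕ}

lemma W_val [NeZero m] (hpm : p.Coprime m) {a : ZMod m} (ha : a ≠ 0) (t : (ZMod m)ˣ) :
    H916T.W p ((t : ZMod m) * a) =
      2 * ((∑ j ∈ Finset.range (orderOf (p : ZMod m)),
        ((p : ZMod m) ^ j * ((t : ZMod m) * a)).val : ℕ) : ℤ) - orderOf (p : ZMod m) * m := by
  unfold H916T.W
  have hu := H916T.isUnit_p hpm
  have h1 : ∀ j ∈ Finset.range (orderOf (p : ZMod m)),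
      H916R2.saw ((p : ZMod m) ^ j * ((t : ZMod m) * a)) =
        2 * ((((p : ZMod m) ^ j * ((t : ZMod m) * a)).val : ℕ) : ℤ) - m := by
    intro j _
    apply H916R2.saw_of_ne_zero
    intro h
    have h2 := ((hu.pow j).mul_right_eq_zero).mp h
    exact ha ((t.isUnit.mul_right_eq_zero).mp h2)
  rw [Finset.sum_congr rfl h1, Finset.sum_sub_distrib, ← Finset.mul_sum]
  push_cast
  simp

lemma linked_iff [NeZero m] (hpm : p.Coprime m) (a b : ZMod m) :
    H916Z.Link p a b ↔ Linked p m a b := by
  unfold H916Z.Link Linked
  constructor
  · rintro ⟨ha, hb, h | ⟨h1, h2⟩ | h⟩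
    · exact ⟨ha, hb, Or.inl h⟩
    · exact ⟨ha, hb, Or.inr (Or.inl ⟨even_iff_two_dvd.mpr h1, even_iff_two_dvd.mpr h2⟩)⟩
    · refine ⟨ha, hb, Or.inr (Or.inr fun t => ?_)⟩
      have h1 := h t
      rw [W_val hpm ha, W_val hpm hb] at h1
      have h2 : ((∑ j ∈ Finset.range (orderOf (p : ZMod m)),
          ((p : ZMod m) ^ j * ((t : ZMod m) * a)).val : ℕ) : ℤ) =
        ((∑ j ∈ Finset.range (orderOf (p : ZMod m)),
          ((p : ZMod m) ^ j * ((t : ZMod m) * b)).val : ℕ) : ℤ) := by linarith
      exact_mod_cast h2
  · rintro ⟨ha, hb, h | ⟨h1, h2⟩ | h⟩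
    · exact ⟨ha, hb, Or.inl h⟩
    · exact ⟨ha, hb, Or.inr (Or.inl ⟨even_iff_two_dvd.mp h1, even_iff_two_dvd.mp h2⟩)⟩
    · refine ⟨ha, hb, Or.inr (Or.inr fun t => ?_)⟩
      rw [W_val hpm ha, W_val hpm hb, h t]

open scoped Classical in
lemma countP_quot [NeZero m] (hpm : p.Coprime m) (s : Multiset (ZMod m)) (a : ZMod m) :
    s.countP (fun b => Relation.EqvGen (H916Z.Link p) a b) =
      s.countP (fun b => Quot.mk (Linked p m) b = Quot.mk (Linked p m) a) := by
  have hLL : H916Z.Link p = Linked p m := by
    funext x y
    exact propext (linked_iff hpm x y)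
  rw [hLL]
  refine Multiset.countP_congr rfl fun b _ => ?_
  rw [← Quot.eq]
  exact propext eq_comm

lemma samePar_of [NeZero m] (hpm : p.Coprime m) {s s' : Multiset (ZMod m)}
    (h : SameParities p m s s') : SamePar p s s' := by
  classical
  intro a
  rw [countP_quot hpm, countP_quot hpm]
  exact h _

open scoped Classical in
lemma samePar_of_par [NeZero m] (hpm : p.Coprime m) {s : Multiset (ZMod m)}
    (h : H547_as.par (fun a => Quot.mk (Linked p m) a) s = 0) : SamePar p s 0 := by
  intro a
  rw [countP_quot hpm, Multiset.countP_zero]
  have h1 := congrFun h (Quot.mk (Linked p m) a)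
  simp only [H547_as.par, Pi.zero_apply] at h1
  rw [← H547_pp.countP_cast, ZMod.natCast_eq_zero_iff, ← even_iff_two_dvd] at h1
  exact iff_of_true (by convert h1) Even.zero

lemma sameParities_symm {s s' : Multiset (ZMod m)} (h : SameParities p m s s') :
    SameParities p m s' s := fun C => (h C).symm

/-- the sign is multiplicative -/
lemma sign_sum {S : CycleSystem p} (σ : SignSystem S) (hm : 0 < m) (hpm : p.Coprime m)
    (F : Finset (Multiset (ZMod m))) (hF : ∀ u ∈ F, S.Alg m u) :
    S.Alg m (∑ u ∈ F, u) ∧ σ.sign m (∑ u ∈ F, u) = ∏ u ∈ F, σ.sign m u := by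
  classical
  induction F using Finset.induction_on with
  | empty =>
    rw [sum_empty, prod_empty]
    exact ⟨S.empty hm hpm, sign_zero σ hm hpm⟩
  | insert u F hu ih =>
    have h1 := ih fun w hw => hF w (mem_insert_of_mem hw)
    have h2 := hF u (mem_insert_self _ _)
    rw [sum_insert hu, prod_insert hu]
    exact ⟨S.join hm hpm h2 h1.1, by rw [σ.join hm hpm h2 h1.1, h1.2]⟩

lemma form_self {S : CycleSystem p} {σ : SignSystem S} (D : SignedForm σ m) (x : D.V) :
    ((D.form x x : ℚ) : ℝ) = ∑ i, D.weight i * ‖D.coord x i‖ ^ 2 := by
  have h := D.form_eq x x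
  have h1 : ∀ i, (D.weight i : ℂ) * (D.coord x i * (starRingEnd ℂ) (D.coord x i)) =
      ((D.weight i * ‖D.coord x i‖ ^ 2 : ℝ) : ℂ) := by
    intro i
    rw [Complex.mul_conj, Complex.normSq_eq_norm_sq]
    push_cast
    ring
  rw [sum_congr rfl fun i _ => h1 i, ← Complex.ofReal_sum] at h
  have h2 : (((D.form x x : ℚ) : ℝ) : ℂ) = ((∑ i, D.weight i * ‖D.coord x i‖ ^ 2 : ℝ) : ℂ) := by
    rw [← h]
    push_cast
    rfl
  exact_mod_cast h2

lemma definite {S : CycleSystem p} {σ : SignSystem S} (D : SignedForm σ m) (ε : ℤˣ) {x : D.V}
    (hx : x ≠ 0) (h : ∀ i, D.coord x i ≠ 0 → σ.sign m (D.res i) = ε) :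
    0 < ((ε : ℤ) : ℚ) * D.form x x := by
  have h0 : ∃ i, D.coord x i ≠ 0 := by
    by_contra hc
    push Not at hc
    apply hx
    apply D.coord_injective
    rw [map_zero]
    exact funext hc
  obtain ⟨i₀, hi₀⟩ := h0
  have hpos : ∀ i, D.coord x i ≠ 0 → 0 < ((ε : ℤ) : ℝ) * (D.weight i * ‖D.coord x i‖ ^ 2) := by
    intro i hi
    have h1 := D.weight_sign i
    rw [h i hi, mul_comm] at h1
    rw [← mul_assoc]
    exact mul_pos h1 (pow_pos (norm_pos_iff.mpr hi) 2)
  have key : (0 : ℝ) < ((ε : ℤ) : ℝ) * ((D.form x x : ℚ) : ℝ) := by
    rw [form_self, mul_sum]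
    refine sum_pos' (fun i _ => ?_) ⟨i₀, mem_univ _, hpos i₀ hi₀⟩
    by_cases hi : D.coord x i = 0
    · rw [hi]; simp
    · exact (hpos i hi).le
  exact_mod_cast key

end proof

/-- **The numerical Hodge standard conjecture for the abelian varieties of Gauss sum type is equivalent
to the positivity of at most `c - 1` signs; the forms are definite on the parts with given parities.** -/
theorem result (p m : ℕ) (hp : p.Prime) (hm : 0 < m) (hpm : p.Coprime m) (S : CycleSystem p) :
    (∀ σ : SignSystem S,
      -- the sign depends only on parities
      (∀ s s' : Multiset (ZMod m), S.Alg m s → S.Alg m s' → SameParities p m s s' →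
        σ.sign m s = σ.sign m s') ∧
      -- it is the same for all conjugate characters
      (∀ (s : Multiset (ZMod m)) (t : (ZMod m)ˣ), S.Alg m s →
        σ.sign m (s.map fun a => (t : ZMod m) * a) = σ.sign m s) ∧
      -- it is positive if all the numbers are even
      (∀ s : Multiset (ZMod m), S.Alg m s → SameParities p m s 0 → σ.sign m s = 1) ∧
      -- the form is definite on the parts with given parities
      ∀ (D : SignedForm σ m) (s : Multiset (ZMod m)), S.Alg m s → DefiniteOn σ D s) ∧
    -- there are at most `c - 1` signs
    linkClasses p m ≤ 2 ^ (m.primeFactors.erase 2).card ∧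
    (∃ E : Finset (Multiset (ZMod m)), E.card ≤ linkClasses p m - 1 ∧ (∀ u ∈ E, S.Alg m u) ∧
      (∀ s : Multiset (ZMod m), S.Alg m s → ∃ F ⊆ E, ∀ σ : SignSystem S,
        σ.sign m s = ∏ u ∈ F, σ.sign m u) ∧
      ∀ σ : SignSystem S, (∀ u ∈ E, σ.sign m u = 1) → ∀ D : SignedForm σ m, Positive D) ∧
    -- the form is positive definite for the good degrees
    ∀ (σ : SignSystem S) (D : SignedForm σ m), GoodDegrees p D → Positive D := by
  classical
  have hz : NeZero m := ⟨hm.ne'⟩
  have hQ : Finite (Quot (Linked p m)) := Quot.finite _
  have hQF : Fintype (Quot (Linked p m)) := Fintype.ofFinite _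
  refine ⟨fun σ => ⟨fun s s' hs hs' h => sign_of_samePar hp hm hpm σ hs hs' (samePar_of hpm h),
      fun s t hs => ?_, fun s hs h => sign_of_even hp hm hpm σ hs (samePar_of hpm h),
      fun D s hs x hx hxs => ?_⟩,
    H547_pp.ncard_classes_le (p := p) (Linked p m) fun a b hab => (linked_iff hpm a b).1 hab, ?_⟩
  · have h0 := ((gt_iff hpm).mp (S.isTate hm hpm hs)).1
    exact sign_of_samePar hp hm hpm σ (alg_unit hp hm hpm S hs t) hs
      (samePar_map h0 fun a ha => link_unit t ha)
  · exact definite D _ hx fun i hi =>
      sign_of_samePar hp hm hpm σ (D.alg i) hs (samePar_of hpm (hxs i hi))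
  have hne0 : ∀ a : ZMod m, a ≠ 0 → Quot.mk (Linked p m) a ≠ Quot.mk _ 0 := by
    intro a ha h0
    rw [Quot.eq] at h0
    have h1 : ∀ x y : ZMod m, Relation.EqvGen (Linked p m) x y → (x = 0 ↔ y = 0) := by
      intro x y hxy
      induction hxy with
      | rel x y hxy => exact iff_of_false hxy.1 hxy.2.1
      | refl x => exact Iff.rfl
      | symm x y _ ih => exact ih.symm
      | trans x y z _ _ ih1 ih2 => exact ih1.trans ih2
    exact ha ((h1 a 0 h0).2 rfl)
  obtain ⟨E, hE, hEA, H⟩ := exists_sign_generators S hm hpm (fun a => Quot.mk (Linked p m) a)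
    {C : Quot (Linked p m) | C ≠ Quot.mk _ 0} hne0
  have key : ∀ s : Multiset (ZMod m), S.Alg m s →
      ∃ F ⊆ E, ∀ σ : SignSystem S, σ.sign m s = ∏ u ∈ F, σ.sign m u := by
    intro s hs
    obtain ⟨F, hFE, hF⟩ := H s hs
    refine ⟨F, hFE, fun σ => ?_⟩
    have h1 := sign_sum σ hm hpm F fun u hu => hEA u (hFE hu)
    have h2 := sign_of_even hp hm hpm σ (S.join hm hpm hs h1.1) (samePar_of_par hpm hF)
    rw [σ.join hm hpm hs h1.1, h1.2] at h2
    have h3 : (∏ u ∈ F, σ.sign m u) * ∏ u ∈ F, σ.sign m u = 1 := Int.units_mul_self _
    exact mul_right_cancel (h2.trans h3.symm)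
  have pos : ∀ σ : SignSystem S, (∀ u ∈ E, σ.sign m u = 1) →
      ∀ D : SignedForm σ m, Positive D := by
    intro σ hE1 D x hx
    have h1 := definite D 1 hx fun i _ => by
      obtain ⟨F, hFE, hF⟩ := key (D.res i) (D.alg i)
      rw [hF σ]
      exact prod_eq_one fun u hu => hE1 u (hFE hu)
    simpa using h1
  refine ⟨⟨E, hE, hEA, key, pos⟩, fun σ D hD x hx => ?_⟩
  have h1 := definite D 1 hx fun i _ =>
    sign_good hp hm hpm σ (D.alg i) (hD.imp (fun h => h i) id)
  simpa using h1

end Pool.Agent.Results.MP_c0b458_ag.GaussSumSigns
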