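import Pool.Agent.Helper793_Tate.THdg

/-!
# The conjecture of Hodge type for products of varieties, in particular of abelian varieties, whose
# Frobenius fields are separated

Let `k` be a finite field (or a finitely generated field of positive characteristic; then we fix
**one** place `v` at which all varieties below have good reduction, with a residue field with `p ^ a`
elements). Let `g` be the geometric Frobenius element (at `v`).

We consider finitely many CM fields `K r` and Weil numbers `π r` in `K r`, divided into blocks: `b r`
is the block of `r`. A variety belongs to the block `i` if some powers of the eigenvalues of `g` on
its cohomology are products of powers of `p` and of conjugates of the `π r` with `b r = i`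
(`EigenvaluesIn`). For an abelian variety this has to be checked in degree one only, and all products
and powers of varieties of one block belong to this block. The fields `K r`, `K s` of different
blocks are supposed to be separated: for instance

* one of them is an imaginary quadratic field which is not contained in the other one; or
* the degrees of their maximal real subfields are coprime and odd, and they contain no common
  imaginary quadratic field; or
* the maximal real subfield of one of them is linearly disjoint from the Galois closure of the other
  one, and they contain no common imaginary quadratic field; or
* the degree of one of them is twice a prime number, it is not contained in the Galois closure of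
  the other one, and they contain no common imaginary quadratic field; or
* any two embeddings of the two fields in the complex numbers are cross flipped.

**Theorem.** Let `Z` be any variety of the block `i₀`, let `X_1, …, X_n` be varieties of pairwise
different blocks, different from `i₀`, for which `g` is generic, and `Y = X_1 × ⋯ × X_n × Z`. Suppose
that the Tate conjecture and the conjecture D (numerical = homological equivalence) hold for all
`X_r` (nothing is assumed on `Z`), or for all factors of `Y` but one, which can be any of them. Then

* every divisor class `c` on `Y` with hard Lefschetz, for instance every **ample** class, is the sum of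
  the pull-backs of divisor classes `f_r` on the factors `X_r` and `e` on `Z` with hard Lefschetz;
* for all sums `c` of pull-backs of divisor classes `f_r` and `e` with hard Lefschetz and of positive
  degree, the conjecture of Hodge type for `(Y, c)` holds **if and only if** it holds for `(Z, e)` and
  for all `(X_r, f_r)`.

Here `g` is generic for `X` (`IsGeneric`) if it has on every subspace of the cohomology of `X` which is
stable under a subgroup of finite index of the Galois group, and which is not contained in the span
of the Tate classes, an eigenvalue no power of which is a power of `p`. If `k` is a finite field this
is so if `g` acts semisimply on the cohomology, as on the cohomology of abelian varieties, and if no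
eigenvalue in an odd degree has a power which is a power of `p`; and then the Tate conjecture for `X`
implies the conjecture D for `X`.

**Abelian varieties.** Let `Z` be **any** abelian variety over a finite field, and let `A` be a
product of powers of absolutely simple abelian varieties `A_r`, where `A_r` is an ordinary elliptic
curve, or has prime dimension and is not of Weil type, or has maximal angle rank, and where the CM
fields of the `A_r` are separated from each other and from the CM fields of the simple factors of
`Z`. All Tate classes on `A` are generated by divisors (`MP_557161_ag.SeparatedFactors`), so the Tate
conjecture, the conjecture D and the conjecture of Hodge type (Milne) hold for `A`. For a suitable prime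
number `ℓ` numerical and homological equivalence coincide on `A × Z` and `Z` (Clozel). Hence the
conjecture of Hodge type for numerical classes holds for `A × Z` and **all** polarizations if (and only
if) it holds for `Z` and all polarizations, though `A × Z` can have many exotic classes. It holds for
all abelian varieties `Z` of dimension at most four (Ancona). For instance, it holds for `E ^ n × Z` if
`Z` is an abelian fourfold and `E` an ordinary elliptic curve whose field of complex multiplication is
not contained in the CM fields of the simple factors of `Z`.

## The formal statement

`W` is a Weil cohomology theory with algebraically closed coefficients (étale cohomology with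
coefficients in the closure of `ℚ_ℓ`), `Γ` is a group (the Galois group), `χ` a character (the inverse
of the cyclotomic character), and a `GVar W Γ` is a variety with an action of `Γ` on its cohomology
algebra; a `PVar W Γ` is such a variety together with a cohomology class. The classes of algebraic
cycles of codimension `j` are supposed to be multiplied by `χ ^ j` by subgroups of finite index
(`RespectsCycles`). `PVar.IsLefschetz` says that the class is the class of a divisor which satisfies the
hard Lefschetz theorem, `PVar.IsPolarization` that moreover its degree is positive, and
`PVar.HodgeType` is the conjecture of Hodge type for the classes of algebraic cycles in cohomology.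
`IsKnown χ X` says that the Tate conjecture and the conjecture D hold for `X`. `IsTower F Z l Y` says
that `Y = X_1 × (X_2 × ( ⋯ × Z))`, where the list `l` consists of the pairs of a block and a member
`X_r` of this block, and `IsSumTower F Z l Y` says this for varieties with classes, where the class of
`Y` is the sum of the pull-backs of the classes of the factors.

## Proof and relation to other files

The method is the one of `MP_ffcd14_ag.AlmostAllFactors`, where the groups generated by the eigenvalues
are assumed to be multiplicatively independent, and where finitely many unknown members of the family
have to be excluded; here the independence follows from the separation of the fields, for one given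
Frobenius element, and nothing is excluded: multiplicative relations between the conjugates of Weil
numbers in separated fields split (`relation_split`), so that all algebraic cycles on the products
split (`MP_f569db_ag.SeparatedFrobeniusFields`). An orthogonal basis of the algebraic classes of a
known factor for the positive definite form reduces the positivity to the other one.
-/

open CategoryTheory AlgebraicGeometry NumberField

universe u

namespace Pool.Agent.Results.MP_c0b458_ag.SeparatedFrobeniusFields

open Pool.Agent.H914 Pool.Agent.H914.VarClass Pool.Agent.H914.VarClass.Obj
  Pool.Agent.TH125.Gal Pool.Agent.H621.AF Pool.Agent.Helper793_Prime Pool.Agent.Helper793_Tate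

/-- **The conjecture of Hodge type for products of varieties with separated Frobenius fields.** -/
theorem result {k : Type u} [Field k] {𝒱 : VarClass k} {ops : CycleOps 𝒱}
    {W : WeilCohomology.{u, 0} ops} [IsAlgClosed W.K] {Γ : Type} [Group Γ] (χ : Γ →* W.Kˣ)
    (p : ℕ) [Fact p.Prime] {I J : Type} [Fintype I] (K : I → Type) [∀ r, Field (K r)]
    [∀ r, NumberField (K r)] [∀ r, IsCMField (K r)] (m : I → ℕ) (π : ∀ r, K r)
    (hint : ∀ r, IsIntegral ℤ (π r))
    (hweil : ∀ r, ∀ φ : K r →+* ℂ, ‖φ (π r)‖ ^ 2 = (p : ℝ) ^ m r)
    (b : I → J) (hsep : ∀ r s, b r ≠ b s → Separated (K r) (K s))
    (g : Γ) (a : ℕ) (ha : 0 < a) (hg : (χ g : W.K) = (p : W.K) ^ a)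
    (i₀ : J) (Z : GVar W Γ) (hZ : EigenvaluesIn p π {r | b r = i₀} g Z)
    (hcl : ∀ l Y, IsTower (blockOf χ p π b g) Z l Y → RespectsCycles χ Y) :
    (∀ l Y, IsTower (blockOf χ p π b g) Z l Y → (∀ q ∈ l, q.1 ≠ i₀) → KnownForAllButOne χ Z l →
      ∀ c, PVar.IsLefschetz ⟨Y, c⟩ → ∃ e l', PVar.IsLefschetz ⟨Z, e⟩ ∧
        (∀ q ∈ l', q.2.IsLefschetz) ∧ forget l' = l ∧
          IsSumTower (blockOf χ p π b g) ⟨Z, e⟩ l' ⟨Y, c⟩) ∧
    ∀ e l Y, IsSumTower (blockOf χ p π b g) ⟨Z, e⟩ l Y → (∀ q ∈ l, q.1 ≠ i₀) →
      KnownForAllButOne χ Z (forget l) → PVar.IsPolarization ⟨Z, e⟩ →
        (∀ q ∈ l, q.2.IsPolarization) →
          Y.IsPolarization ∧
            (Y.HodgeType ↔ PVar.HodgeType ⟨Z, e⟩ ∧ ∀ q ∈ l, q.2.HodgeType) := by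
  have hw : ∀ r, ∀ φ : K r →+* ℂ, ‖φ (π r)‖ ^ 2 = (((p : ℚ) ^ m r : ℚ) : ℝ) :=
    fun r φ => by rw [hweil r φ]; push_cast; rfl
  have hU := unlinkedTowers_of_separated p ha m π hint hw b hsep hg hZ hcl
  exact ⟨fun l Y hY hl hK c hc => hU.div_tower hY (fun q hq => hl q hq) hK c hc,
    fun e l Y hY hl hK he hL =>
      UnlinkedTowers.hodge_tower (Z := ⟨Z, e⟩) hU hY (fun q hq => hl q hq) hK he hL⟩

end Pool.Agent.Results.MP_c0b458_ag.SeparatedFrobeniusFields
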